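import Pool.Agent.H16.ZW.Targets

/-!
Module EXQ of the board zw_modules.
-/

namespace Pool.Agent.H30.ZW

open Pool.Agent.H16.ZW

/-- the coefficients of the solution -/
noncomputable def sol {K : Type} [Field K] (T : PowerSeries K) (c : K) : ℕ → K
  | 0 => c
  | n + 1 => (∑ i : Fin (n + 1), sol T c i * PowerSeries.coeff (n - i) T) / ((n : K) + 1)
  termination_by n => n
  decreasing_by exact i.2

theorem sol_zero {K : Type} [Field K] (T : PowerSeries K) (c : K) : sol T c 0 = c := by
  rw [sol]

theorem sol_succ {K : Type} [Field K] (T : PowerSeries K) (c : K) (n : ℕ) :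
    sol T c (n + 1) =
      (∑ i ∈ Finset.range (n + 1), sol T c i * PowerSeries.coeff (n - i) T) / ((n : K) + 1) := by
  rw [sol, Finset.sum_range]

theorem coeff_TY {K : Type} [Field K] (T Y : PowerSeries K) (n : ℕ) :
    PowerSeries.coeff n (T * Y) =
      ∑ i ∈ Finset.range (n + 1), PowerSeries.coeff i Y * PowerSeries.coeff (n - i) T := by
  rw [mul_comm, PowerSeries.coeff_mul, Finset.Nat.sum_antidiagonal_eq_sum_range_succ_mk]

theorem exq : T_EXQ := by
  intro K _ _ T c
  have hn : ∀ n : ℕ, (n : K) + 1 ≠ 0 := fun n => by exact_mod_cast Nat.succ_ne_zero n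
  have hiff : ∀ Y : PowerSeries K, (PowerSeries.derivative K Y = T * Y ∧
      PowerSeries.constantCoeff Y = c) ↔ Y = PowerSeries.mk (sol T c) := by
    intro Y
    constructor
    · rintro ⟨h1, h2⟩
      have key : ∀ n, PowerSeries.coeff n Y = sol T c n := by
        intro n
        induction n using Nat.strong_induction_on with
        | _ n ih =>
          rcases n with _ | n
          · rw [sol_zero, ← h2, PowerSeries.coeff_zero_eq_constantCoeff_apply]
          · have e := congrArg (PowerSeries.coeff n) h1
            rw [PowerSeries.coeff_derivative, coeff_TY] at e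
            rw [sol_succ, eq_div_iff (hn n), e]
            refine Finset.sum_congr rfl fun i hi => ?_
            rw [ih i (by simpa using hi)]
      ext n
      rw [key, PowerSeries.coeff_mk]
    · rintro rfl
      constructor
      · ext n
        rw [PowerSeries.coeff_derivative, coeff_TY, PowerSeries.coeff_mk, sol_succ,
          div_mul_cancel₀ _ (hn n)]
        refine Finset.sum_congr rfl fun i _ => ?_
        rw [PowerSeries.coeff_mk]
      · rw [← PowerSeries.coeff_zero_eq_constantCoeff_apply, PowerSeries.coeff_mk, sol_zero]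
  exact ⟨_, (hiff _).2 rfl, fun Y hY => (hiff Y).1 hY⟩

end Pool.Agent.H30.ZW
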