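import Pool.Agent.H16.ZW.Targets

/-!
Module MON of the board zw_modules.
-/

open Filter Topology MvPolynomial

namespace Pool.Agent.H30.ZW

open Pool.Agent.H16.ZW
open Pool.Agent.H12.ZD (v v_mul v_pow v_inv v_neg v_zero v_one v_pos v_eq_zero v_add_lt v_add_le'
  v_nonneg)

theorem zpow_sum' {F : Type} [Field F] {ι : Type*} (s : Finset ι) (f : ι → ℤ) {x : F}
    (hx : x ≠ 0) : ∏ i ∈ s, x ^ f i = x ^ ∑ i ∈ s, f i := by
  classical
  induction s using Finset.induction_on with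
  | empty => simp
  | insert a s ha ih => rw [Finset.prod_insert ha, Finset.sum_insert ha, ih, zpow_add₀ hx]

theorem mon_add {F : Type} [Field F] {N : ℕ} (x : Fin N → F) (a b : Fin N → ℤ)
    (hx : ∀ i, x i ≠ 0) : mon x (a + b) = mon x a * mon x b := by
  unfold mon
  rw [← Finset.prod_mul_distrib]
  exact Finset.prod_congr rfl fun i _ => by rw [Pi.add_apply, zpow_add₀ (hx i)]

theorem mon_nsmul {F : Type} [Field F] {N : ℕ} (x : Fin N → F) (a : Fin N → ℤ) (n : ℕ) :
    mon x (n • a) = mon x a ^ n := by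
  unfold mon
  rw [← Finset.prod_pow]
  refine Finset.prod_congr rfl fun i _ => ?_
  rw [Pi.smul_apply, nsmul_eq_mul, mul_comm, zpow_mul, zpow_natCast]

theorem mon_pow {F : Type} [Field F] {N : ℕ} (x : Fin N → F) (a : Fin N → ℤ) (n : ℕ) :
    mon (fun i => x i ^ n) a = mon x a ^ n := by
  unfold mon
  rw [← Finset.prod_pow]
  refine Finset.prod_congr rfl fun i _ => ?_
  show (x i ^ n) ^ a i = (x i ^ a i) ^ n
  rw [← zpow_natCast, ← zpow_natCast, ← zpow_mul, ← zpow_mul, mul_comm]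

theorem mon_mul {F : Type} [Field F] {N : ℕ} (x y : Fin N → F) (a : Fin N → ℤ) :
    mon (fun i => x i * y i) a = mon x a * mon y a := by
  unfold mon
  rw [← Finset.prod_mul_distrib]
  exact Finset.prod_congr rfl fun i _ => mul_zpow _ _ _

theorem mon_mon {F : Type} [Field F] {N : ℕ} (x : Fin N → F) (A : Matrix (Fin N) (Fin N) ℤ)
    (a : Fin N → ℤ) (hx : ∀ i, x i ≠ 0) :
    mon (fun i => mon x (A i)) a = mon x (Matrix.vecMul a A) := by
  unfold mon
  have h1 : ∀ i, (∏ j, x j ^ A i j) ^ a i = ∏ j, x j ^ (a i * A i j) := by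
    intro i
    rw [← Finset.prod_zpow]
    exact Finset.prod_congr rfl fun j _ => by rw [mul_comm, zpow_mul]
  rw [Finset.prod_congr rfl fun i _ => h1 i, Finset.prod_comm]
  refine Finset.prod_congr rfl fun j _ => ?_
  rw [zpow_sum' _ _ (hx j)]
  rfl

theorem mon_zpow {F : Type} [Field F] {N : ℕ} (s : F) (w a : Fin N → ℤ) (hs : s ≠ 0) :
    mon (fun i => s ^ w i) a = s ^ ∑ i, a i * w i := by
  unfold mon
  rw [← zpow_sum' _ _ hs]
  exact Finset.prod_congr rfl fun i _ => by rw [← zpow_mul, mul_comm]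

variable {p : Nat.Primes}

theorem v_zpow_one {x : Qb} (hx : v p x = 1) (n : ℤ) : v p (x ^ n) = 1 := by
  rcases n with n | n
  · simp [v_pow, hx]
  · rw [zpow_negSucc, v_inv, v_pow, hx]
    simp

theorem v_prod_one {ι : Type*} (s : Finset ι) (f : ι → Qb) (h : ∀ i, v p (f i) = 1) :
    v p (∏ i ∈ s, f i) = 1 := by
  classical
  induction s using Finset.induction_on with
  | empty => simp
  | insert a s ha ih => rw [Finset.prod_insert ha, v_mul, h, ih, one_mul]

theorem v_mon {N : ℕ} (x : Fin N → Qb) (a : Fin N → ℤ) (hx : ∀ i, v p (x i) = 1) :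
    v p (mon x a) = 1 := v_prod_one _ _ fun i => v_zpow_one (hx i) _

section close

variable (S : Qb → Prop) (h0 : S 0) (hadd : ∀ a b, S a → S b → S (a + b))
  (hmul : ∀ u a, v p u ≤ 1 → S a → S (u * a))

include h0 hadd hmul

theorem close_pow {x y : Qb} (hx : v p x = 1) (hy : v p y = 1) (h : S (x - y)) (n : ℕ) :
    S (x ^ n - y ^ n) := by
  induction n with
  | zero => simpa using h0
  | succ n ih =>
    have e : x ^ (n + 1) - y ^ (n + 1) = x * (x ^ n - y ^ n) + y ^ n * (x - y) := by ring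
    rw [e]
    exact hadd _ _ (hmul _ _ hx.le ih) (hmul _ _ (by rw [v_pow, hy, one_pow]) h)

theorem close_inv {x y : Qb} (hx : v p x = 1) (hy : v p y = 1) (h : S (x - y)) :
    S (x⁻¹ - y⁻¹) := by
  have hx0 : x ≠ 0 := (v_pos p).1 (by rw [hx]; exact one_pos)
  have hy0 : y ≠ 0 := (v_pos p).1 (by rw [hy]; exact one_pos)
  have e : x⁻¹ - y⁻¹ = -(x⁻¹ * y⁻¹) * (x - y) := by field_simp; ring
  rw [e]
  exact hmul _ _ (by rw [v_neg, v_mul, v_inv, v_inv, hx, hy]; simp) h

theorem close_zpow {x y : Qb} (hx : v p x = 1) (hy : v p y = 1) (h : S (x - y)) (n : ℤ) :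
    S (x ^ n - y ^ n) := by
  rcases n with n | n
  · simpa using close_pow S h0 hadd hmul hx hy h n
  · rw [zpow_negSucc, zpow_negSucc]
    exact close_inv S h0 hadd hmul (by rw [v_pow, hx, one_pow]) (by rw [v_pow, hy, one_pow])
      (close_pow S h0 hadd hmul hx hy h _)

theorem close_prod {ι : Type*} (s : Finset ι) (f g : ι → Qb) (hf : ∀ i, v p (f i) = 1)
    (hg : ∀ i, v p (g i) = 1) (h : ∀ i, S (f i - g i)) :
    S (∏ i ∈ s, f i - ∏ i ∈ s, g i) := by
  classical
  induction s using Finset.induction_on with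
  | empty => simpa using h0
  | insert a s ha ih =>
    rw [Finset.prod_insert ha, Finset.prod_insert ha]
    have e : f a * ∏ i ∈ s, f i - g a * ∏ i ∈ s, g i =
        f a * (∏ i ∈ s, f i - ∏ i ∈ s, g i) + (∏ i ∈ s, g i) * (f a - g a) := by ring
    rw [e]
    exact hadd _ _ (hmul _ _ (hf a).le ih) (hmul _ _ (v_prod_one s g hg).le (h a))

theorem close_mon {N : ℕ} (x y : Fin N → Qb) (a : Fin N → ℤ) (hx : ∀ i, v p (x i) = 1)
    (hy : ∀ i, v p (y i) = 1) (h : ∀ i, S (x i - y i)) : S (mon x a - mon y a) :=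
  close_prod S h0 hadd hmul _ _ _ (fun i => v_zpow_one (hx i) _) (fun i => v_zpow_one (hy i) _)
    fun i => close_zpow S h0 hadd hmul (hx i) (hy i) (h i) _

end close

theorem close_mon_lt {N : ℕ} {x y : Fin N → Qb} (a : Fin N → ℤ) {ε : ℝ} (hε : 0 < ε)
    (hx : ∀ i, v p (x i) = 1) (hy : ∀ i, v p (y i) = 1) (h : ∀ i, v p (x i - y i) < ε) :
    v p (mon x a - mon y a) < ε := by
  refine close_mon (p := p) (fun z => v p z < ε) (by simpa using hε) (fun a b => v_add_lt p) ?_
    x y a hx hy h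
  intro u b hu hb
  rw [v_mul]
  exact lt_of_le_of_lt (mul_le_of_le_one_left (v_nonneg p _) hu) hb

theorem close_mon_le {N : ℕ} {x y : Fin N → Qb} (a : Fin N → ℤ) {ε : ℝ} (hε : 0 ≤ ε)
    (hx : ∀ i, v p (x i) = 1) (hy : ∀ i, v p (y i) = 1) (h : ∀ i, v p (x i - y i) ≤ ε) :
    v p (mon x a - mon y a) ≤ ε := by
  refine close_mon (p := p) (fun z => v p z ≤ ε) (by simpa using hε) (fun a b => v_add_le' p) ?_
    x y a hx hy h
  intro u b hu hb
  rw [v_mul]
  exact (mul_le_of_le_one_left (v_nonneg p _) hu).trans hb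

theorem pf_mon : T_MON := by
  intro N
  refine ⟨fun F _ x a b hx => mon_add x a b hx, fun F _ x a n => ⟨mon_nsmul x a n, mon_pow x a n⟩,
    fun F _ x y a => mon_mul x y a, fun F _ x A a hx => mon_mon x A a hx,
    fun F _ s w a hs => mon_zpow s w a hs, ?_⟩
  intro p x y a ε _ hx hy
  exact ⟨v_mon x a hx, fun h hε => close_mon_lt a hε hx hy h,
    fun h hε => close_mon_le a hε hx hy h⟩

end Pool.Agent.H30.ZW
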