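import Pool.Agent.H30.ZW.MON

/-!
Module PSI of the board zw_modules.
-/

open Filter Topology MvPolynomial

namespace Pool.Agent.H30.ZW

open Pool.Agent.H16.ZW
open Pool.Agent.H12.ZD (v v_mul v_pow v_inv v_neg v_zero v_one v_pos v_eq_zero v_add_lt v_add_le'
  v_nonneg)

theorem ort_vecMul {N : ℕ} {w γ : Fin N → ℤ} {A : Matrix (Fin N) (Fin N) ℤ} {d : ℤ}
    (hA : ∀ i, ∑ j, A i j * w j = d * w i) (h : Ort w γ) : Ort w (Matrix.vecMul γ A) := by
  unfold Ort at h ⊢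
  have h1 : ∀ j, Matrix.vecMul γ A j * w j = ∑ i, γ i * (A i j * w j) := by
    intro j
    show (∑ i, γ i * A i j) * w j = _
    rw [Finset.sum_mul]
    exact Finset.sum_congr rfl fun i _ => by ring
  rw [Finset.sum_congr rfl fun j _ => h1 j, Finset.sum_comm]
  have h2 : ∀ i, ∑ j, γ i * (A i j * w j) = d * (γ i * w i) := by
    intro i
    rw [← Finset.mul_sum, hA]
    ring
  rw [Finset.sum_congr rfl fun i _ => h2 i, ← Finset.mul_sum, h, mul_zero]

theorem geo_zero {N : ℕ} (A : Matrix (Fin N) (Fin N) ℤ) : geo A 0 = 0 := by simp [geo]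

theorem geo_succ {N : ℕ} (A : Matrix (Fin N) (Fin N) ℤ) (k : ℕ) :
    geo A (k + 1) = 1 + A * geo A k := by
  unfold geo
  rw [Finset.sum_range_succ', Finset.mul_sum, pow_zero, add_comm]
  congr 1
  exact Finset.sum_congr rfl fun i _ => by rw [pow_succ']

theorem mon_zero {F : Type} [Field F] {N : ℕ} (x : Fin N → F) : Pool.Agent.H16.ZW.mon x 0 = 1 := by
  unfold Pool.Agent.H16.ZW.mon
  exact Finset.prod_eq_one fun i _ => by simp

variable {N : ℕ} {D : Dat N} {p : Nat.Primes} {q : ℕ → Fin N → Qb} {x : Fin N → Qb}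
  {y : ℕ → Fin N → Qb}

theorem eps_le_one (p : Nat.Primes) (k : ℕ) : ((p : ℝ)⁻¹) ^ k ≤ 1 := by
  have h2 : (2 : ℝ) ≤ p := by exact_mod_cast p.2.two_le
  exact pow_le_one₀ (by positivity) (inv_le_one_of_one_le₀ (by linarith))

theorem eps_mono (p : Nat.Primes) {k l : ℕ} (h : k ≤ l) : ((p : ℝ)⁻¹) ^ l ≤ ((p : ℝ)⁻¹) ^ k := by
  have h2 : (2 : ℝ) ≤ p := by exact_mod_cast p.2.two_le
  exact pow_le_pow_of_le_one (by positivity) (inv_le_one_of_one_le₀ (by linarith)) h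

theorem eps_nonneg (p : Nat.Primes) (k : ℕ) : 0 ≤ ((p : ℝ)⁻¹) ^ k := by positivity

theorem ne_zero_of_v {z : Qb} (h : v p z = 1) : z ≠ 0 := (v_pos p).1 (by rw [h]; exact one_pos)

/-- one step -/
theorem psi_one (hD : D.Ok) (hG : GoodP p D q) (hO : Orb p D q x y) (n : ℕ) {γ : Fin N → ℤ}
    (hγ : Ort D.w γ) :
    v p (mon (y (n + 1)) γ - mon D.c γ * mon (y n) (Matrix.vecMul γ D.A)) ≤
      ((p : ℝ)⁻¹) ^ (2 * D.δ ^ n) := by
  obtain ⟨μ, hμ, h⟩ := hO.step n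
  have hz : ∀ i, v p (D.c i * mon (y n) (D.A i) * μ ^ D.w i) = 1 := by
    intro i
    rw [v_mul, v_mul, hG.c1, v_mon _ _ (hO.unit n), v_zpow_one hμ]
    norm_num
  have e := close_mon_le γ (eps_nonneg p _) (hO.unit (n + 1)) hz h
  have e2 : mon (fun i => D.c i * mon (y n) (D.A i) * μ ^ D.w i) γ =
      mon D.c γ * mon (y n) (Matrix.vecMul γ D.A) := by
    rw [mon_mul (fun i => D.c i * mon (y n) (D.A i)) (fun i => μ ^ D.w i),
      mon_mul D.c (fun i => mon (y n) (D.A i)),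
      mon_mon _ _ _ (fun i => ne_zero_of_v (hO.unit n i)), mon_zpow _ _ _ (ne_zero_of_v hμ)]
    have : ∑ i, γ i * D.w i = 0 := hγ
    rw [this, zpow_zero, mul_one]
  rw [e2] at e
  exact e

theorem psi_step (hD : D.Ok) (hG : GoodP p D q) (hO : Orb p D q x y) (n k : ℕ) :
    ∀ γ : Fin N → ℤ, Ort D.w γ →
    v p (mon (y (n + k)) γ -
    mon D.c (Matrix.vecMul γ (geo D.A k)) * mon (y n) (Matrix.vecMul γ (D.A ^ k))) ≤
      ((p : ℝ)⁻¹) ^ (2 * D.δ ^ n) := by
  induction k with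
  | zero =>
    intro γ hγ
    rw [geo_zero, Matrix.vecMul_zero, mon_zero, pow_zero, Matrix.vecMul_one, one_mul, add_zero,
      sub_self, v_zero]
    exact eps_nonneg p _
  | succ k ih =>
    intro γ hγ
    have hγ' : Ort D.w (Matrix.vecMul γ D.A) := ort_vecMul hD.eig hγ
    have e1 := psi_one hD hG hO (n + k) hγ
    have e2 := ih _ hγ'
    have hδ : 1 ≤ D.δ := le_trans (by norm_num) hD.two
    have hle : 2 * D.δ ^ n ≤ 2 * D.δ ^ (n + k) :=
      Nat.mul_le_mul_left _ (Nat.pow_le_pow_right hδ (Nat.le_add_right _ _))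
    have e1' := e1.trans (eps_mono p hle)
    have e3 : v p (mon D.c γ * (mon (y (n + k)) (Matrix.vecMul γ D.A) -
        mon D.c (Matrix.vecMul (Matrix.vecMul γ D.A) (geo D.A k)) *
          mon (y n) (Matrix.vecMul (Matrix.vecMul γ D.A) (D.A ^ k)))) ≤
        ((p : ℝ)⁻¹) ^ (2 * D.δ ^ n) := by
      rw [v_mul, v_mon _ _ hG.c1, one_mul]
      exact e2
    have hc : mon D.c (Matrix.vecMul γ (geo D.A (k + 1))) =
        mon D.c γ * mon D.c (Matrix.vecMul (Matrix.vecMul γ D.A) (geo D.A k)) := by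
      rw [← mon_add _ _ _ hD.c0, Matrix.vecMul_vecMul, geo_succ, Matrix.vecMul_add,
        Matrix.vecMul_one]
    have hA : Matrix.vecMul (Matrix.vecMul γ D.A) (D.A ^ k) = Matrix.vecMul γ (D.A ^ (k + 1)) := by
      rw [Matrix.vecMul_vecMul, pow_succ']
    have e4 := v_add_le' p e1' e3
    rw [hc, ← hA, ← add_assoc]
    have e5 : mon (y (n + k + 1)) γ -
        mon D.c γ * mon D.c (Matrix.vecMul (Matrix.vecMul γ D.A) (geo D.A k)) *
          mon (y n) (Matrix.vecMul (Matrix.vecMul γ D.A) (D.A ^ k)) =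
        mon (y (n + k + 1)) γ - mon D.c γ * mon (y (n + k)) (Matrix.vecMul γ D.A) +
        mon D.c γ * (mon (y (n + k)) (Matrix.vecMul γ D.A) -
        mon D.c (Matrix.vecMul (Matrix.vecMul γ D.A) (geo D.A k)) *
          mon (y n) (Matrix.vecMul (Matrix.vecMul γ D.A) (D.A ^ k))) := by ring
    rw [e5]
    exact e4

theorem psi : T_PSI := by
  intro N D hD p q hG x y hO
  refine ⟨⟨hG.c1, hD.two, fun γ hγ => ort_vecMul hD.eig hγ, hO.unit,
    fun n k γ hγ => psi_step hD hG hO n k γ hγ⟩, ?_⟩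
  intro n γ hγ
  obtain ⟨s, hs, h⟩ := hO.res n
  have hz : ∀ i, v p (s ^ D.w i * q n i) = 1 := by
    intro i
    rw [v_mul, v_zpow_one hs, hG.q1, one_mul]
  have e := close_mon_lt γ one_pos (hO.unit n) hz h
  have e2 : mon (fun i => s ^ D.w i * q n i) γ = mon (q n) γ := by
    rw [mon_mul (fun i => s ^ D.w i) (q n), mon_zpow _ _ _ (ne_zero_of_v hs)]
    have : ∑ i, γ i * D.w i = 0 := hγ
    rw [this, zpow_zero, one_mul]
  rw [e2] at e
  exact e

end Pool.Agent.H30.ZW
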